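import Pool.Agent.H333R3.DG.Defs

set_option autoImplicit false

namespace Pool.Agent.H333R3.DG

open CategoryTheory

variable {P : Pres}

/-- the morphism of the fundamental groupoid given by an edge -/
def ed {x y : Vertex P} (e : x ⟶ y) : pt x ⟶ pt y :=
  (CategoryTheory.Quotient.functor (SquareRel P)).map ((Quiver.FreeGroupoid.of (Vertex P)).map e)

theorem hom_induction {x : Vertex P} (C : ∀ y : Vertex P, (pt x ⟶ pt y) → Prop)
    (h0 : C x (𝟙 _))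
    (h1 : ∀ (y z : Vertex P) (g : pt x ⟶ pt y) (e : y ⟶ z), C y g → C z (g ≫ ed e))
    (h2 : ∀ (y z : Vertex P) (g : pt x ⟶ pt y) (e : z ⟶ y), C y g →
      C z (g ≫ Groupoid.inv (ed e))) :
    ∀ (y : Vertex P) (g : pt x ⟶ pt y), C y g := by
  have key : ∀ (y : Vertex P) (p : Quiver.Path (V := Quiver.Symmetrify (Vertex P)) x y),
      C y (Quot.mk _ (Quot.mk _ p) : pt x ⟶ pt y) := by
    intro y p
    induction p with
    | nil => exact h0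
    | cons p f ih =>
      rcases f with f | f
      · have := h1 _ _ _ f ih
        exact this
      · have := h2 _ _ _ f ih
        exact this
  intro y g
  induction g using Quot.ind with
  | mk g =>
    induction g using Quot.ind with
    | mk p => exact key y p

/-- `g` is the composite of `a` positively oriented edges from `x` to `z`. -/
inductive Fwd : (x : Vertex P) → ℕ → (z : Vertex P) → (pt x ⟶ pt z) → Prop
  | nil (x : Vertex P) : Fwd x 0 x (𝟙 _)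
  | cons {x y z : Vertex P} (e : x ⟶ y) {a : ℕ} {g : pt y ⟶ pt z} (h : Fwd y a z g) :
      Fwd x (a + 1) z (ed e ≫ g)

theorem Fwd.trans {x y z : Vertex P} {a b : ℕ} {g : pt x ⟶ pt y} {h : pt y ⟶ pt z}
    (hg : Fwd x a y g) (hh : Fwd y b z h) : Fwd x (a + b) z (g ≫ h) := by
  induction hg with
  | nil x => simpa using hh
  | @cons x y' y e a g _ ih =>
    have := Fwd.cons e (ih hh)
    rw [← Category.assoc] at this
    have e1 : a + 1 + b = a + b + 1 := by ring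
    rw [e1]
    exact this

theorem Fwd.split {b : ℕ} {z : Vertex P} : ∀ (a : ℕ) {x : Vertex P} {g : pt x ⟶ pt z},
    Fwd x (a + b) z g → ∃ (y : Vertex P) (p : pt x ⟶ pt y) (r : pt y ⟶ pt z),
      Fwd x a y p ∧ Fwd y b z r ∧ g = p ≫ r := by
  intro a
  induction a with
  | zero =>
    intro x g h
    rw [Nat.zero_add] at h
    exact ⟨x, 𝟙 _, g, Fwd.nil x, h, by simp⟩
  | succ a ih =>
    intro x g h
    have e1 : a + 1 + b = a + b + 1 := by ring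
    rw [e1] at h
    cases h with
    | cons e h =>
      obtain ⟨y, p, r, h1, h2, h3⟩ := ih h
      exact ⟨y, ed e ≫ p, r, Fwd.cons e h1, h2, by rw [h3, Category.assoc]⟩

/-- A set of vertices, closed under adjacency, each with at most one outgoing positive edge. -/
structure Det (C : Set (Vertex P)) : Prop where
  det : ∀ x ∈ C, ∀ s s' : (Σ y : Vertex P, (x ⟶ y)), s = s'
  fwd : ∀ x ∈ C, ∀ y : Vertex P, Nonempty (x ⟶ y) → y ∈ C
  bwd : ∀ x ∈ C, ∀ y : Vertex P, Nonempty (y ⟶ x) → y ∈ C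

variable {C : Set (Vertex P)}

theorem Det.unique (hC : Det C) {a : ℕ} : ∀ {x : Vertex P}, x ∈ C → ∀ {z z' : Vertex P}
    {g : pt x ⟶ pt z} {g' : pt x ⟶ pt z'}, Fwd x a z g → Fwd x a z' g' →
    (⟨z, g⟩ : Σ z : Vertex P, (pt x ⟶ pt z)) = ⟨z', g'⟩ := by
  induction a with
  | zero =>
    intro x _ z z' g g' h h'
    cases h
    cases h'
    rfl
  | succ a ih =>
    intro x hx z z' g g' h h'
    cases h with
    | cons e h =>
      cases h' with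
      | cons e' h' =>
        rename_i y g1 y' g1'
        have he := hC.det x hx ⟨y, e⟩ ⟨y', e'⟩
        cases he
        have := ih (hC.fwd x hx y ⟨e⟩) h h'
        cases this
        rfl

theorem Det.unique' (hC : Det C) {a : ℕ} {x : Vertex P} (hx : x ∈ C) {z : Vertex P}
    {g g' : pt x ⟶ pt z} (h : Fwd x a z g) (h' : Fwd x a z g') : g = g' := by
  have := hC.unique hx h h'
  simpa using this

theorem Det.normal (hC : Det C) {x : Vertex P} (hx : x ∈ C) : ∀ (y : Vertex P)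
    (g : pt x ⟶ pt y), y ∈ C ∧ ∃ (z : Vertex P) (a b : ℕ) (p : pt x ⟶ pt z) (q : pt y ⟶ pt z),
      Fwd x a z p ∧ Fwd y b z q ∧ g = p ≫ Groupoid.inv q := by
  apply hom_induction
  · exact ⟨hx, x, 0, 0, 𝟙 _, 𝟙 _, Fwd.nil x, Fwd.nil x, by simp⟩
  · rintro y y' g e ⟨hy, z, a, b, p, q, hp, hq, rfl⟩
    refine ⟨hC.fwd y hy y' ⟨e⟩, ?_⟩
    cases hq with
    | nil => exact ⟨y', a + 1, 0, p ≫ ed e, 𝟙 _, by
        have := hp.trans (Fwd.cons e (Fwd.nil y'))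
        simpa using this, Fwd.nil y', by simp⟩
    | cons e' h' =>
      rename_i y'' b' q'
      have he := hC.det y hy ⟨y', e⟩ ⟨y'', e'⟩
      cases he
      exact ⟨z, a, b', p, q', hp, h', by simp⟩
  · rintro y y' g e ⟨hy, z, a, b, p, q, hp, hq, rfl⟩
    exact ⟨hC.bwd y hy y' ⟨e⟩, z, a, b + 1, p, ed e ≫ q, hp, Fwd.cons e hq, by simp⟩

theorem Det.loop (hC : Det C) {w : Vertex P} (hw : w ∈ C) (g : pt w ⟶ pt w) :
    ∃ (z : Vertex P) (a k : ℕ) (p : pt w ⟶ pt z) (r : pt z ⟶ pt z),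
      Fwd w a z p ∧ Fwd z k z r ∧
        (g = p ≫ r ≫ Groupoid.inv p ∨ g = (p ≫ r ≫ Groupoid.inv p)⁻¹) := by
  obtain ⟨-, z, a, b, p, q, hp, hq, rfl⟩ := hC.normal hw w g
  rcases le_total a b with h | h
  · obtain ⟨k, rfl⟩ := Nat.exists_eq_add_of_le h
    obtain ⟨y, p', r, h1, h2, h3⟩ := Fwd.split a hq
    have := hC.unique hw hp h1
    cases this
    refine ⟨z, a, k, p, r, hp, h2, Or.inr ?_⟩
    subst h3
    rw [Groupoid.vertexGroup_inv]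
    simp
  · obtain ⟨k, rfl⟩ := Nat.exists_eq_add_of_le h
    obtain ⟨y, p', r, h1, h2, h3⟩ := Fwd.split b hp
    have := hC.unique hw hq h1
    cases this
    refine ⟨z, b, k, q, r, hq, h2, Or.inl ?_⟩
    subst h3
    simp

theorem Fwd.pow {z : Vertex P} {k : ℕ} {r : pt z ⟶ pt z} (h : Fwd z k z r) (n : ℕ) :
    Fwd z (n * k) z (r ^ n) := by
  induction n with
  | zero => simpa using! Fwd.nil z
  | succ n ih =>
    have := ih.trans h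
    rw [pow_succ, Nat.succ_mul]
    exact this

theorem conj_pow' {w z : Vertex P} (p : pt w ⟶ pt z) (r : pt z ⟶ pt z) (n : ℕ) :
    (p ≫ r ≫ Groupoid.inv p) ^ n = p ≫ (r ^ n) ≫ Groupoid.inv p := by
  induction n with
  | zero =>
    rw [pow_zero, pow_zero, Groupoid.vertexGroup_one, Groupoid.vertexGroup_one]
    simp
  | succ n ih =>
    rw [pow_succ, pow_succ, ih, Groupoid.vertexGroup_mul, Groupoid.vertexGroup_mul]
    simp

theorem Det.conj (hC : Det C) {w : Vertex P} (hw : w ∈ C) {z₁ z₂ : Vertex P} {a₁ a₂ k₁ k₂ : ℕ}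
    {p₁ : pt w ⟶ pt z₁} {p₂ : pt w ⟶ pt z₂} {r₁ : pt z₁ ⟶ pt z₁} {r₂ : pt z₂ ⟶ pt z₂}
    (h₁ : Fwd w a₁ z₁ p₁) (h₂ : Fwd w a₂ z₂ p₂) (l₁ : Fwd z₁ k₁ z₁ r₁) (l₂ : Fwd z₂ k₂ z₂ r₂)
    (h : a₁ ≤ a₂) :
    (p₁ ≫ r₁ ≫ Groupoid.inv p₁) ^ k₂ = (p₂ ≫ r₂ ≫ Groupoid.inv p₂) ^ k₁ := by
  obtain ⟨d, rfl⟩ := Nat.exists_eq_add_of_le h
  obtain ⟨y, p', s, h3, h4, h5⟩ := Fwd.split a₁ h₂
  have := hC.unique hw h₁ h3
  cases this
  have hz₁ : z₁ ∈ C := (hC.normal hw z₁ p₁).1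
  have e1 := (l₁.pow k₂).trans h4
  have e2 := h4.trans (l₂.pow k₁)
  have e3 : k₂ * k₁ + d = d + k₁ * k₂ := by ring
  rw [e3] at e1
  have e4 := hC.unique' hz₁ e1 e2
  rw [conj_pow', conj_pow', h5]
  simp only [Groupoid.inv_eq_inv, IsIso.inv_comp, Category.assoc]
  rw [← Category.assoc s (r₂ ^ k₁), ← e4]
  simp

theorem rel_of_pow {D : Type*} [Group D] (X Y g h : D) (k₁ k₂ : ℕ) (hk₁ : k₁ ≠ 0)
    (key : X ^ k₂ = Y ^ k₁) (hg : g = X ∨ g = X⁻¹) (hh : h = Y ∨ h = Y⁻¹) :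
    ∃ m n : ℤ, (m ≠ 0 ∨ n ≠ 0) ∧ g ^ m = h ^ n := by
  rcases hg with rfl | rfl <;> rcases hh with rfl | rfl
  · exact ⟨k₂, k₁, Or.inr (by exact_mod_cast hk₁), by exact_mod_cast key⟩
  · refine ⟨k₂, -k₁, Or.inr (by simpa using hk₁), ?_⟩
    rw [inv_zpow, zpow_neg, inv_inv, zpow_natCast, zpow_natCast, key]
  · refine ⟨-k₂, k₁, Or.inr (by simpa using hk₁), ?_⟩
    rw [inv_zpow, zpow_neg, inv_inv, zpow_natCast, zpow_natCast, key]
  · refine ⟨k₂, k₁, Or.inr (by simpa using hk₁), ?_⟩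
    rw [inv_zpow, inv_zpow, zpow_natCast, zpow_natCast, key]

/-- Any two elements of the diagram group satisfy a non-trivial relation `g ^ m = h ^ n`. -/
theorem Det.relation (hC : Det C) {w : Vertex P} (hw : w ∈ C) (g h : pt w ⟶ pt w) :
    ∃ m n : ℤ, (m ≠ 0 ∨ n ≠ 0) ∧ g ^ m = h ^ n := by
  have main : ∀ g h : pt w ⟶ pt w, ∀ (z₁ z₂ : Vertex P) (a₁ a₂ k₁ k₂ : ℕ)
    (p₁ : pt w ⟶ pt z₁) (p₂ : pt w ⟶ pt z₂) (r₁ : pt z₁ ⟶ pt z₁) (r₂ : pt z₂ ⟶ pt z₂)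
    (_ : Fwd w a₁ z₁ p₁) (_ : Fwd w a₂ z₂ p₂) (_ : Fwd z₁ k₁ z₁ r₁) (_ : Fwd z₂ k₂ z₂ r₂)
    (_ : a₁ ≤ a₂) (_ : g = p₁ ≫ r₁ ≫ Groupoid.inv p₁ ∨ g = (p₁ ≫ r₁ ≫ Groupoid.inv p₁)⁻¹)
    (_ : h = p₂ ≫ r₂ ≫ Groupoid.inv p₂ ∨ h = (p₂ ≫ r₂ ≫ Groupoid.inv p₂)⁻¹),
    ∃ m n : ℤ, (m ≠ 0 ∨ n ≠ 0) ∧ g ^ m = h ^ n := by
    intro g h z₁ z₂ a₁ a₂ k₁ k₂ p₁ p₂ r₁ r₂ h₁ h₂ l₁ l₂ hle hg hh
    have key := hC.conj hw h₁ h₂ l₁ l₂ hle
    by_cases hk₁ : k₁ = 0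
    · subst hk₁
      cases l₁
      refine ⟨1, 0, Or.inl one_ne_zero, ?_⟩
      have : p₁ ≫ 𝟙 (pt z₁) ≫ Groupoid.inv p₁ = (1 : pt w ⟶ pt w) := by
        rw [Groupoid.vertexGroup_one]; simp
      rw [this] at hg
      rcases hg with rfl | rfl <;> simp
    · exact rel_of_pow _ _ _ _ _ _ hk₁ key hg hh
  obtain ⟨z₁, a₁, k₁, p₁, r₁, h₁, l₁, hg⟩ := hC.loop hw g
  obtain ⟨z₂, a₂, k₂, p₂, r₂, h₂, l₂, hh⟩ := hC.loop hw h
  rcases le_total a₁ a₂ with hle | hle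
  · exact main g h z₁ z₂ a₁ a₂ k₁ k₂ p₁ p₂ r₁ r₂ h₁ h₂ l₁ l₂ hle hg hh
  · obtain ⟨m, n, h1, h2⟩ := main h g z₂ z₁ a₂ a₁ k₂ k₁ p₂ p₁ r₂ r₁ h₂ h₁ l₂ l₁ hle hh hg
    exact ⟨n, m, h1.symm, h2.symm⟩

end Pool.Agent.H333R3.DG
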