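import Mathlib

set_option autoImplicit false

/-!
# Diagram groups

Definitions: finite semigroup presentations, the Squier square complex, diagram groups and the
rank of their abelianisation.
-/

namespace Pool.Agent.H333R3.DG

open CategoryTheory

/-- A finite semigroup presentation `(n, R)`: the alphabet is `{0, …, n - 1}` and `R` is the finite
list of relations `u = v`, each given as a pair of words. -/
abbrev Pres := ℕ × List (List ℕ × List ℕ)

/-- `w` is a non-empty word over the alphabet `{0, …, n - 1}`. -/
def IsWord (n : ℕ) (w : List ℕ) : Prop := w ≠ [] ∧ ∀ a ∈ w, a < n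

/-- A proper presentation: the two sides of every relation are distinct non-empty words over the
alphabet, and no relation is listed together with its reverse. -/
def Proper (P : Pres) : Prop :=
  ∀ r ∈ P.2, IsWord P.1 r.1 ∧ IsWord P.1 r.2 ∧ r.1 ≠ r.2 ∧ (r.2, r.1) ∉ P.2

/-- The vertices of the Squier complex `S(P)`: the non-empty words over the alphabet. -/
structure Vertex (P : Pres) where
  /-- the word -/
  word : List ℕ
  /-- it is a non-empty word over the alphabet -/
  isWord : IsWord P.1 word

/-- The positively oriented edges `(a, u → v, b)` of the Squier complex from `x = aub` to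
`y = avb`, where `u = v` is a relation of `P`. -/
structure Edge (P : Pres) (x y : Vertex P) where
  /-- the left context -/
  a : List ℕ
  /-- the right context -/
  b : List ℕ
  /-- the relation `u = v` -/
  r : List ℕ × List ℕ
  /-- it belongs to the presentation -/
  mem : r ∈ P.2
  /-- the source is `aub` -/
  src : x.word = a ++ r.1 ++ b
  /-- the target is `avb` -/
  tgt : y.word = a ++ r.2 ++ b

/-- The 1-skeleton of the Squier complex, as a quiver of positively oriented edges. -/
instance (P : Pres) : Quiver (Vertex P) := ⟨Edge P⟩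

/-- The four edges bound a square of the Squier complex: `e₁ = (a, u → v, bu'c)`,
`e₂ = (avb, u' → v', c)`, `e₃ = (aub, u' → v', c)` and `e₄ = (a, u → v, bv'c)`. -/
def IsSquare {P : Pres} {x y z t : Vertex P} (e₁ : Edge P x y) (e₂ : Edge P y t)
    (e₃ : Edge P x z) (e₄ : Edge P z t) : Prop :=
  ∃ (a b c u v u' v' : List ℕ),
    (e₁.a = a ∧ e₁.r = (u, v) ∧ e₁.b = b ++ u' ++ c) ∧
    (e₂.a = a ++ v ++ b ∧ e₂.r = (u', v') ∧ e₂.b = c) ∧
    (e₃.a = a ++ u ++ b ∧ e₃.r = (u', v') ∧ e₃.b = c) ∧
    (e₄.a = a ∧ e₄.r = (u, v) ∧ e₄.b = b ++ v' ++ c)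

/-- The fundamental groupoid of the 1-skeleton: the free groupoid on the graph. -/
abbrev Graph (P : Pres) := Quiver.FreeGroupoid (Vertex P)

/-- The homotopies across the squares: `e₁e₂ = e₃e₄`. -/
inductive SquareRel (P : Pres) : HomRel (Graph P)
  | square {x y z t : Vertex P} (e₁ : x ⟶ y) (e₂ : y ⟶ t) (e₃ : x ⟶ z) (e₄ : z ⟶ t)
      (h : IsSquare e₁ e₂ e₃ e₄) :
      SquareRel P ((Quiver.FreeGroupoid.of (Vertex P)).map e₁ ≫
          (Quiver.FreeGroupoid.of (Vertex P)).map e₂)
        ((Quiver.FreeGroupoid.of (Vertex P)).map e₃ ≫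
          (Quiver.FreeGroupoid.of (Vertex P)).map e₄)

/-- The fundamental groupoid of the Squier complex `S(P)`. -/
abbrev Squier (P : Pres) := CategoryTheory.Quotient (SquareRel P)

/-- A vertex as an object of the fundamental groupoid. -/
def pt {P : Pres} (w : Vertex P) : Squier P := ⟨(Quiver.FreeGroupoid.of (Vertex P)).obj w⟩

/-- The diagram group `D(P, w) = π₁(S(P), w)`. -/
abbrev DiagramGroup (P : Pres) (w : Vertex P) : Type := pt w ⟶ pt w

/-- The dimension of `D(P, w)^{ab} ⊗ ℚ`, as a cardinal. -/
noncomputable def rk (P : Pres) (w : Vertex P) : Cardinal :=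
  Module.rank ℚ (TensorProduct ℤ ℚ (Additive (Abelianization (DiagramGroup P w))))

open Classical in
/-- The rank of the abelianisation of `D(P, w)`: a natural number `k`, written `some k`, or `∞`,
written `none`. -/
noncomputable def abRank (P : Pres) (w : Vertex P) : Option ℕ :=
  if rk P w < Cardinal.aleph0 then some (Cardinal.toNat (rk P w)) else none

end Pool.Agent.H333R3.DG
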