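import Pool.Agent.H333R3.DG.Words

set_option autoImplicit false

namespace Pool.Agent.H333R3.DG

open Turing Relation

variable {Γ Λ : Type} [Inhabited Γ] [Inhabited Λ]

/-- the word of a configuration -/
def conf (L : List Γ) (l : Λ) (i : Fin 3) (R : List Γ) : List (Sy Γ Λ) :=
  (.inl (.inl false) :: L.reverse.map fun a => .inl (.inr a)) ++
    sq l i :: ((R.map fun a => .inl (.inr a)) ++ [.inl (.inl true)])

/-- the new tape -/
def tact (st : TM0.Stmt Γ) (T : Tape Γ) : Tape Γ :=
  match st with
  | TM0.Stmt.move d => T.move d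
  | TM0.Stmt.write a => T.write a

theorem tstep_eq (M : TM0.Machine Γ Λ) (q : Λ) (T : Tape Γ) :
    TM0.step M ⟨q, T⟩ = (M q T.1).map fun p => ⟨p.1, tact p.2 T⟩ := rfl

theorem one_step (L : List Γ) (l : Λ) (i : Fin 3) (R : List Γ) :
    ∃ (A B : List (Sy Γ Λ)) (y x : TL Γ), conf L l i R = A ++ lhs l i y x ++ B ∧
      rd x = (Tape.mk' (ListBlank.mk L) (ListBlank.mk R)).1 ∧
      ∀ p : Λ × TM0.Stmt Γ, ∃ L' R' : List Γ,
        A ++ act p.1 i y x p.2 ++ B = conf L' p.1 (i + 1) R' ∧
        Tape.mk' (ListBlank.mk L') (ListBlank.mk R') =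
          tact p.2 (Tape.mk' (ListBlank.mk L) (ListBlank.mk R)) := by
  rcases L with _ | ⟨b, L⟩ <;> rcases R with _ | ⟨r, R⟩
  · refine ⟨[], [], .inl false, .inl true, by simp [conf, lhs], by simp [rd], ?_⟩
    rintro ⟨l', (_ | _) | c⟩
    · exact ⟨[], [default], by simp [conf, act, sq], by simp [tact]⟩
    · exact ⟨[default], [], by simp [conf, act, sq], by simp [tact]⟩
    · exact ⟨[], [c], by simp [conf, act, sq], by simp [tact]⟩
  · refine ⟨[], (R.map fun a => .inl (.inr a)) ++ [.inl (.inl true)], .inl false, .inr r,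
      by simp [conf, lhs], by simp [rd], ?_⟩
    rintro ⟨l', (_ | _) | c⟩
    · exact ⟨[], default :: r :: R, by simp [conf, act, sq], by simp [tact]⟩
    · exact ⟨[r], R, by simp [conf, act, sq], by simp [tact]⟩
    · exact ⟨[], c :: R, by simp [conf, act, sq], by simp [tact]⟩
  · refine ⟨.inl (.inl false) :: L.reverse.map fun a => .inl (.inr a), [], .inr b, .inl true,
      by simp [conf, lhs], by simp [rd], ?_⟩
    rintro ⟨l', (_ | _) | c⟩
    · exact ⟨L, [b], by simp [conf, act, sq], by simp [tact]⟩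
    · exact ⟨default :: b :: L, [], by simp [conf, act, sq], by simp [tact]⟩
    · exact ⟨b :: L, [c], by simp [conf, act, sq], by simp [tact]⟩
  · refine ⟨.inl (.inl false) :: L.reverse.map fun a => .inl (.inr a),
      (R.map fun a => .inl (.inr a)) ++ [.inl (.inl true)], .inr b, .inr r,
      by simp [conf, lhs], by simp [rd], ?_⟩
    rintro ⟨l', (_ | _) | c⟩
    · exact ⟨L, b :: r :: R, by simp [conf, act, sq], by simp [tact]⟩
    · exact ⟨r :: b :: L, R, by simp [conf, act, sq], by simp [tact]⟩
    · exact ⟨b :: L, c :: R, by simp [conf, act, sq], by simp [tact]⟩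

theorem countP_emb (f : Sy Γ Λ → Bool) (hf : ∀ a : Γ, f (.inl (.inr a)) = false) (L : List Γ) :
    (L.map fun a => (.inl (.inr a) : Sy Γ Λ)).countP f = 0 := by
  rw [List.countP_eq_zero]
  intro s hs
  obtain ⟨a, -, rfl⟩ := List.mem_map.1 hs
  simp [hf]

theorem heads_conf (L : List Γ) (l : Λ) (i : Fin 3) (R : List Γ) : heads (conf L l i R) = 1 := by
  unfold heads conf
  rw [List.countP_append, List.countP_cons, List.countP_cons, List.countP_append,
    countP_emb _ (fun _ => rfl), countP_emb _ (fun _ => rfl)]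
  simp [sq]

theorem hs_conf (L : List Γ) (l : Λ) (i : Fin 3) (R : List Γ) : hs (conf L l i R) = 0 := by
  unfold hs conf
  rw [List.countP_append, List.countP_cons, List.countP_cons, List.countP_append,
    countP_emb _ (fun _ => rfl), countP_emb _ (fun _ => rfl)]
  simp [sq, isH]

theorem bad_iff (M : TM0.Machine Γ Λ) (L : List Γ) (l : Λ) (i : Fin 3) (R : List Γ) :
    Bad M (conf L l i R) ↔
      (StateTransition.eval (TM0.step M) ⟨l, Tape.mk' (ListBlank.mk L) (ListBlank.mk R)⟩).Dom := by
  constructor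
  · intro h
    generalize hW : conf L l i R = W at h
    induction h generalizing L l i R with
    | halt A B l' i' y x h =>
      obtain ⟨A', B', y', x', e1, e2, -⟩ := one_step L l i R
      have h1 := heads_conf L l i R
      rw [e1] at hW h1
      obtain ⟨rfl, rfl, rfl, rfl, rfl, rfl⟩ := lhs_unique h1 hW
      rw [e2] at h
      rw [Part.dom_iff_mem]
      refine ⟨_, StateTransition.mem_eval.2 ⟨ReflTransGen.refl, ?_⟩⟩
      rw [tstep_eq, h]; rfl
    | step A B l' i' y x p h hB ih =>
      obtain ⟨A', B', y', x', e1, e2, e3⟩ := one_step L l i R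
      have h1 := heads_conf L l i R
      rw [e1] at hW h1
      obtain ⟨rfl, rfl, rfl, rfl, rfl, rfl⟩ := lhs_unique h1 hW
      obtain ⟨L', R', e4, e5⟩ := e3 p
      have h3 := ih L' p.1 (i + 1) R' e4.symm
      rw [e2] at h
      have h4 : StateTransition.Reaches (TM0.step M)
          ⟨l, Tape.mk' (ListBlank.mk L) (ListBlank.mk R)⟩
          ⟨p.1, Tape.mk' (ListBlank.mk L') (ListBlank.mk R')⟩ := by
        apply ReflTransGen.single
        rw [tstep_eq, h, e5]; rfl
      rw [StateTransition.reaches_eval h4]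
      exact h3
  · intro hd
    rw [Part.dom_iff_mem] at hd
    obtain ⟨b, hb⟩ := hd
    have main : ∀ a : TM0.Cfg Γ Λ, b ∈ StateTransition.eval (TM0.step M) a →
        ∀ (L : List Γ) (i : Fin 3) (R : List Γ),
          a.Tape = Tape.mk' (ListBlank.mk L) (ListBlank.mk R) → Bad M (conf L a.q i R) := by
      intro a ha
      refine StateTransition.evalInduction
        (C := fun a => ∀ (L : List Γ) (i : Fin 3) (R : List Γ),
          a.Tape = Tape.mk' (ListBlank.mk L) (ListBlank.mk R) → Bad M (conf L a.q i R)) ha ?_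
      rintro ⟨q, T⟩ _ ih L i R hT
      simp only at hT
      obtain ⟨A, B, y, x, e1, e2, e3⟩ := one_step L q i R
      simp only
      rw [e1]
      rw [← hT] at e2 e3
      cases hM : M q T.1 with
      | none =>
        rw [← e2] at hM
        exact Bad.halt A B q i y x hM
      | some p =>
        obtain ⟨L', R', e4, e5⟩ := e3 p
        refine Bad.step A B q i y x p (e2 ▸ hM) ?_
        rw [e4]
        exact ih ⟨p.1, tact p.2 T⟩ (by rw [tstep_eq, hM]; rfl) L' (i + 1) R' e5.symm
    exact main _ hb L i R rfl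

end Pool.Agent.H333R3.DG
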