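import Pool.Agent.H333R3.DG.Machine
import Pool.Agent.H333R3.DG.Sim
import Pool.Agent.Helper462.OneRule.Source

set_option autoImplicit false

namespace Pool.Agent.H333R3.DG

open Turing CategoryTheory
open Turing.PartrecToTM2 (trNat trList)
open Pool.Agent.Helper462.OneRule (u u_not_computable sym exists_machine digits_computable)

theorem abRank_small {P : Pres} {w : Vertex P} :
    (abRank P w = some 0 ∨ abRank P w = some 1) ↔ rk P w ≤ 1 := by
  unfold abRank
  constructor
  · intro h
    split_ifs at h with h1
    · have h2 : ((Cardinal.toNat (rk P w) : ℕ) : Cardinal) = rk P w := Cardinal.cast_toNat_of_lt_aleph0 h1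
      rcases h with h | h <;> simp only [Option.some.injEq] at h <;> rw [← h2, h] <;> simp
    · simp at h
  · intro h
    have h1 : rk P w < Cardinal.aleph0 := lt_of_le_of_lt h Cardinal.one_lt_aleph0
    rw [if_pos h1]
    have h2 : ((Cardinal.toNat (rk P w) : ℕ) : Cardinal) = rk P w :=
      Cardinal.cast_toNat_of_lt_aleph0 h1
    rw [← h2] at h
    have h3 : Cardinal.toNat (rk P w) ≤ 1 := by exact_mod_cast h
    simp only [Option.some.injEq]
    omega

theorem final : ∃ P : Pres, Proper P ∧ ∀ f : Pres × List ℕ →. Option ℕ, Partrec f →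
    ∃ w : Vertex P, abRank P w ∉ f (P, w.word) := by
  classical
  obtain ⟨Λ, i1, i2, M, hM⟩ := exists_machine
  have fK : Finite PartrecToTM2.K' := by
    refine Finite.of_injective (fun k : PartrecToTM2.K' => match k with
      | .main => (0 : Fin 4) | .rev => 1 | .aux => 2 | .stack => 3) ?_
    intro a b h
    cases a <;> cases b <;> simp_all
  have fG : Finite (TM2to1.Γ' PartrecToTM2.K' (fun _ => PartrecToTM2.Γ')) :=
    inferInstanceAs (Finite (Bool × (PartrecToTM2.K' → Option PartrecToTM2.Γ')))
  let _ : Fintype (TM2to1.Γ' PartrecToTM2.K' (fun _ => PartrecToTM2.Γ')) := Fintype.ofFinite _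
  let _ : Fintype Λ := Fintype.ofFinite _
  refine ⟨pres M, pres_proper M, fun f hf => ?_⟩
  by_contra hcon
  push Not at hcon
  let inp : ℕ → List (TM2to1.Γ' PartrecToTM2.K' (fun _ => PartrecToTM2.Γ')) :=
    fun n => sym true .cons :: (trNat n).reverse.map (sym false)
  let cw : ℕ → List (Sy (TM2to1.Γ' PartrecToTM2.K' (fun _ => PartrecToTM2.Γ')) Λ) :=
    fun n => conf [] default 0 (inp n)
  have hne : ∀ n, cw n ≠ [] := fun n => by simp [cw, conf]
  let w : ℕ → Vertex (pres M) := fun n => vx M (cw n) (hne n)
  have hrk : ∀ n, (u n).Dom ↔ ¬ rk (pres M) (w n) ≤ 1 := by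
    intro n
    rw [← hM n]
    have hb := bad_iff M [] default 0 (inp n)
    constructor
    · intro h
      exact not_rk_le_one M (cw n) (hne n) (hb.2 h)
    · intro h
      by_contra h2
      exact h (rk_le_one M (cw n) (hne n) (heads_conf _ _ _ _) (hs_conf _ _ _ _)
        fun h3 => h2 (hb.1 h3))
  have hw : Computable fun n => (w n).word := by
    let κ : PartrecToTM2.Γ' → ℕ := fun a =>
      en (Γ := TM2to1.Γ' PartrecToTM2.K' (fun _ => PartrecToTM2.Γ')) (Λ := Λ)
        (.inl (.inr (sym false a)))
    have h1 := digits_computable κ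
    have h2 : Computable (fun n : ℕ => ((trNat n).map κ).reverse) :=
      Primrec.list_reverse.to_comp.comp h1
    have h3 : Primrec (fun l : List ℕ =>
        ([en (Γ := TM2to1.Γ' PartrecToTM2.K' (fun _ => PartrecToTM2.Γ')) (Λ := Λ)
            (.inl (.inl false)),
          en (Γ := TM2to1.Γ' PartrecToTM2.K' (fun _ => PartrecToTM2.Γ')) (Λ := Λ)
            (sq default 0),
          en (Γ := TM2to1.Γ' PartrecToTM2.K' (fun _ => PartrecToTM2.Γ')) (Λ := Λ)
            (.inl (.inr (sym true .cons)))] ++ (l ++
          [en (Γ := TM2to1.Γ' PartrecToTM2.K' (fun _ => PartrecToTM2.Γ')) (Λ := Λ)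
            (.inl (.inl true))]))) :=
      Primrec.list_append.comp (Primrec.const _)
        (Primrec.list_append.comp Primrec.id (Primrec.const _))
    refine (h3.to_comp.comp h2).of_eq fun n => ?_
    simp [w, vx, cw, conf, inp, κ, List.map_reverse, Function.comp_def]
  have hF : Partrec fun n => f (pres M, (w n).word) :=
    hf.comp ((Computable.const (pres M)).pair hw)
  have hv : Computable fun n => abRank (pres M) (w n) :=
    hF.of_eq fun n => Part.eq_some_iff.2 (hcon (w n))
  apply u_not_computable
  have hp : PrimrecPred (fun o : Option ℕ => ¬ (o = some 0 ∨ o = some 1)) :=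
    ((Primrec.eq.comp Primrec.id (Primrec.const _)).or
      (Primrec.eq.comp Primrec.id (Primrec.const _))).not
  have hc : Computable fun n => decide (¬ (abRank (pres M) (w n) = some 0 ∨
      abRank (pres M) (w n) = some 1)) := hp.decide.to_comp.comp hv
  refine ComputablePred.of_eq (p := fun n => ¬ (abRank (pres M) (w n) = some 0 ∨
      abRank (pres M) (w n) = some 1)) ⟨inferInstance, ?_⟩ fun n => ?_
  · convert hc
  · rw [abRank_small, hrk n]

end Pool.Agent.H333R3.DG
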