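import Mathlib

set_option autoImplicit false

/-! Words for a Turing machine with one head letter. -/

namespace Pool.Agent.H333R3.DG

open Turing

/-- tape letters: the two end markers and the symbols -/
abbrev TL (Γ : Type) := Bool ⊕ Γ

/-- all letters: tape letters, the state letters (with a clock modulo 3) and five letters for
the halted machine -/
abbrev Sy (Γ Λ : Type) := TL Γ ⊕ ((Λ × Fin 3) ⊕ Fin 5)

variable {Γ Λ : Type} [Inhabited Γ] [Inhabited Λ]

/-- the symbol read -/
def rd : TL Γ → Γ
  | .inl _ => default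
  | .inr a => a

/-- a state letter -/
abbrev sq (l : Λ) (i : Fin 3) : Sy Γ Λ := .inr (.inl (l, i))

/-- a letter of the halted machine -/
abbrev sh (j : Fin 5) : Sy Γ Λ := .inr (.inr j)

/-- the left-hand side -/
def lhs (l : Λ) (i : Fin 3) (y x : TL Γ) : List (Sy Γ Λ) := [.inl y, sq l i, .inl x]

/-- the right-hand side of a proper step -/
def act (l' : Λ) (i : Fin 3) (y x : TL Γ) : TM0.Stmt Γ → List (Sy Γ Λ)
  | .write c =>
    match x with
    | .inl b => [.inl y, sq l' (i + 1), .inl (.inr c), .inl (.inl b)]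
    | .inr _ => [.inl y, sq l' (i + 1), .inl (.inr c)]
  | .move .right =>
    match x with
    | .inl b => [.inl y, .inl (.inr default), sq l' (i + 1), .inl (.inl b)]
    | .inr a => [.inl y, .inl (.inr a), sq l' (i + 1)]
  | .move .left =>
    match y with
    | .inl b => [.inl (.inl b), sq l' (i + 1), .inl (.inr default), .inl x]
    | .inr a => [sq l' (i + 1), .inl (.inr a), .inl x]

/-- the right-hand side -/
def rhs (M : TM0.Machine Γ Λ) (l : Λ) (i : Fin 3) (y x : TL Γ) : List (Sy Γ Λ) :=
  match M l (rd x) with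
  | none => [.inl y, sh 0, .inl x]
  | some (l', st) => act l' i y x st

/-- the rules of the halted machine: two triangles -/
def hrules : List (List (Sy Γ Λ) × List (Sy Γ Λ)) :=
  [([sh 0], [sh 1]), ([sh 1], [sh 2]), ([sh 2], [sh 0]),
   ([sh 0], [sh 3]), ([sh 3], [sh 4]), ([sh 4], [sh 0])]

/-- the rules -/
noncomputable def rules [Fintype Γ] [Fintype Λ] (M : TM0.Machine Γ Λ) :
    List (List (Sy Γ Λ) × List (Sy Γ Λ)) :=
  (Finset.univ : Finset ((Λ × Fin 3) × (TL Γ × TL Γ))).toList.map
    (fun p => (lhs p.1.1 p.1.2 p.2.1 p.2.2, rhs M p.1.1 p.1.2 p.2.1 p.2.2)) ++ hrules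

theorem mem_rules [Fintype Γ] [Fintype Λ] (M : TM0.Machine Γ Λ)
    (r : List (Sy Γ Λ) × List (Sy Γ Λ)) :
    r ∈ rules M ↔ (∃ l i y x, r = (lhs l i y x, rhs M l i y x)) ∨ r ∈ hrules := by
  unfold rules
  rw [List.mem_append, List.mem_map]
  constructor
  · rintro (⟨p, -, rfl⟩ | h)
    · exact Or.inl ⟨_, _, _, _, rfl⟩
    · exact Or.inr h
  · rintro (⟨l, i, y, x, rfl⟩ | h)
    · exact Or.inl ⟨((l, i), (y, x)), by simp, rfl⟩
    · exact Or.inr h

/-- number of head letters -/
def heads (W : List (Sy Γ Λ)) : ℕ := W.countP Sum.isRight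

/-- is a letter of the halted machine -/
def isH : Sy Γ Λ → Bool
  | .inr (.inr _) => true
  | _ => false

/-- number of letters of the halted machine -/
def hs (W : List (Sy Γ Λ)) : ℕ := W.countP isH

theorem heads_append (A B : List (Sy Γ Λ)) : heads (A ++ B) = heads A + heads B := by
  simp [heads]

theorem hs_append (A B : List (Sy Γ Λ)) : hs (A ++ B) = hs A + hs B := by
  simp [hs]

theorem heads_lhs (l : Λ) (i : Fin 3) (y x : TL Γ) : heads (lhs l i y x) = 1 := by
  simp [heads, lhs, sq]

theorem hs_lhs (l : Λ) (i : Fin 3) (y x : TL Γ) : hs (lhs l i y x) = 0 := by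
  simp [hs, lhs, isH, sq]

theorem heads_act (l' : Λ) (i : Fin 3) (y x : TL Γ) (st : TM0.Stmt Γ) :
    heads (act l' i y x st) = 1 := by
  rcases st with (_ | _) | c <;> rcases x with x | x <;> rcases y with y | y <;>
    simp [heads, act, sq]

theorem hs_act (l' : Λ) (i : Fin 3) (y x : TL Γ) (st : TM0.Stmt Γ) :
    hs (act l' i y x st) = 0 := by
  rcases st with (_ | _) | c <;> rcases x with x | x <;> rcases y with y | y <;>
    simp [hs, act, isH, sq]

/-- the machine word reaches a halting configuration -/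
inductive Bad (M : TM0.Machine Γ Λ) : List (Sy Γ Λ) → Prop
  | halt (A B : List (Sy Γ Λ)) (l : Λ) (i : Fin 3) (y x : TL Γ) (h : M l (rd x) = none) :
      Bad M (A ++ lhs l i y x ++ B)
  | step (A B : List (Sy Γ Λ)) (l : Λ) (i : Fin 3) (y x : TL Γ) (p : Λ × TM0.Stmt Γ)
      (h : M l (rd x) = some p) (hB : Bad M (A ++ act p.1 i y x p.2 ++ B)) :
      Bad M (A ++ lhs l i y x ++ B)

/-- Uniqueness of the position of the head. -/
theorem split_unique {T H : Type} : ∀ {A A' : List (T ⊕ H)} {B B' : List (T ⊕ H)} {s s' : H},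
    A.countP Sum.isRight = 0 → A'.countP Sum.isRight = 0 →
    A ++ Sum.inr s :: B = A' ++ Sum.inr s' :: B' → A = A' ∧ s = s' ∧ B = B' := by
  intro A
  induction A with
  | nil =>
    intro A' B B' s s' _ h2 h
    cases A' with
    | nil => simpa using h
    | cons a A' =>
      simp only [List.nil_append, List.cons_append, List.cons.injEq] at h
      obtain ⟨rfl, -⟩ := h
      simp at h2
  | cons a A ih =>
    intro A' B B' s s' h1 h2 h
    cases A' with
    | nil =>
      simp only [List.nil_append, List.cons_append, List.cons.injEq] at h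
      obtain ⟨rfl, -⟩ := h
      simp at h1
    | cons a' A' =>
      simp only [List.cons_append, List.cons.injEq] at h
      obtain ⟨rfl, h⟩ := h
      rw [List.countP_cons] at h1 h2
      have := ih (by omega) (by omega) h
      simpa using this

theorem lhs_unique {A A' B B' : List (Sy Γ Λ)} {l l' : Λ} {i i' : Fin 3} {y x y' x' : TL Γ}
    (h1 : heads (A ++ lhs l i y x ++ B) = 1)
    (h : A ++ lhs l i y x ++ B = A' ++ lhs l' i' y' x' ++ B') :
    A = A' ∧ B = B' ∧ l = l' ∧ i = i' ∧ y = y' ∧ x = x' := by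
  have h2 : heads (A' ++ lhs l' i' y' x' ++ B') = 1 := by rw [← h]; exact h1
  rw [heads_append, heads_append, heads_lhs] at h1 h2
  have e : ∀ (A B : List (Sy Γ Λ)) (l : Λ) (i : Fin 3) (y x : TL Γ),
      A ++ lhs l i y x ++ B = (A ++ [.inl y]) ++ Sum.inr (Sum.inl (l, i)) :: (.inl x :: B) := by
    intro A B l i y x
    simp [lhs]
  rw [e, e] at h
  have k1 : (A ++ [(Sum.inl y : Sy Γ Λ)]).countP Sum.isRight = 0 := by
    have : heads A = 0 := by omega
    unfold heads at this
    rw [List.countP_append, this]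
    simp
  have k2 : (A' ++ [(Sum.inl y' : Sy Γ Λ)]).countP Sum.isRight = 0 := by
    have : heads A' = 0 := by omega
    unfold heads at this
    rw [List.countP_append, this]
    simp
  obtain ⟨h3, h4, h5⟩ := split_unique k1 k2 h
  have h6 := List.append_inj' h3 rfl
  simp only [Sum.inl.injEq, Prod.mk.injEq, List.cons.injEq, and_true] at h4 h5 h6
  exact ⟨h6.1, h5.2, h4.1, h4.2, h6.2, h5.1⟩

end Pool.Agent.H333R3.DG
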