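import Pool.Agent.H333R3.DG.Rank
import Pool.Agent.H333R3.DG.Words

set_option autoImplicit false

namespace Pool.Agent.H333R3.DG

open Turing CategoryTheory

theorem edge_ext {P : Pres} {x : Vertex P} (s s' : Σ y : Vertex P, (x ⟶ y))
    (ha : (show Edge P x s.1 from s.2).a = (show Edge P x s'.1 from s'.2).a)
    (hb : (show Edge P x s.1 from s.2).b = (show Edge P x s'.1 from s'.2).b)
    (hr : (show Edge P x s.1 from s.2).r = (show Edge P x s'.1 from s'.2).r) : s = s' := by
  obtain ⟨⟨yw, hy⟩, ⟨a, b, r, mem, src, tgt⟩⟩ := s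
  obtain ⟨⟨yw', hy'⟩, ⟨a', b', r', mem', src', tgt'⟩⟩ := s'
  dsimp only at ha hb hr tgt tgt'
  subst ha hb hr
  subst tgt tgt'
  rfl

section Machine

variable {Γ Λ : Type} [Inhabited Γ] [Inhabited Λ] [Fintype Γ] [Fintype Λ]

/-- the number of a letter -/
noncomputable def en (s : Sy Γ Λ) : ℕ := (Fintype.equivFin (Sy Γ Λ) s : ℕ)

omit [Inhabited Γ] [Inhabited Λ] in
theorem en_inj : Function.Injective (en : Sy Γ Λ → ℕ) := by
  intro s t h
  exact (Fintype.equivFin (Sy Γ Λ)).injective (Fin.ext h)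

omit [Inhabited Γ] [Inhabited Λ] in
theorem en_lt (s : Sy Γ Λ) : en s < Fintype.card (Sy Γ Λ) := Fin.is_lt _

omit [Inhabited Γ] [Inhabited Λ] in
theorem map_en_inj {W W' : List (Sy Γ Λ)} (h : W.map en = W'.map en) : W = W' :=
  List.map_injective_iff.2 en_inj h

omit [Inhabited Γ] [Inhabited Λ] in
theorem exists_word (w : List ℕ) (h : ∀ a ∈ w, a < Fintype.card (Sy Γ Λ)) :
    ∃ W : List (Sy Γ Λ), W.map en = w := by
  induction w with
  | nil => exact ⟨[], rfl⟩
  | cons a w ih =>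
    obtain ⟨W, hW⟩ := ih fun b hb => h b (List.mem_cons_of_mem _ hb)
    refine ⟨(Fintype.equivFin (Sy Γ Λ)).symm ⟨a, h a List.mem_cons_self⟩ :: W, ?_⟩
    rw [List.map_cons, hW]
    congr 1
    simp [en]

/-- the presentation of the machine -/
noncomputable def pres (M : TM0.Machine Γ Λ) : Pres :=
  (Fintype.card (Sy Γ Λ), (rules M).map fun r => (r.1.map en, r.2.map en))

theorem isWord_map (M : TM0.Machine Γ Λ) (W : List (Sy Γ Λ)) (hW : W ≠ []) :
    IsWord (pres M).1 (W.map en) := by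
  refine ⟨by simpa using hW, ?_⟩
  intro a ha
  obtain ⟨s, -, rfl⟩ := List.mem_map.1 ha
  exact en_lt s

/-- the vertex of a word -/
noncomputable def vx (M : TM0.Machine Γ Λ) (W : List (Sy Γ Λ)) (hW : W ≠ []) :
    Vertex (pres M) := ⟨W.map en, isWord_map M W hW⟩

/-- the clock of a word -/
def clk (W : List (Sy Γ Λ)) : Option (Fin 3) :=
  W.findSome? fun s => match s with
    | .inr (.inl (_, i)) => some i
    | _ => none

omit [Inhabited Γ] [Inhabited Λ] [Fintype Γ] [Fintype Λ] in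
theorem clk_lhs (l : Λ) (i : Fin 3) (y x : TL Γ) : clk (lhs l i y x) = some i := by
  simp [clk, lhs, sq]

omit [Inhabited Λ] [Fintype Γ] [Fintype Λ] in
theorem clk_act (l' : Λ) (i : Fin 3) (y x : TL Γ) (st : TM0.Stmt Γ) :
    clk (act l' i y x st) = some (i + 1) := by
  rcases st with (_ | _) | c <;> rcases x with x | x <;> rcases y with y | y <;>
    simp [clk, act, sq]

omit [Fintype Γ] [Fintype Λ] in
theorem clk_rhs (M : TM0.Machine Γ Λ) (l : Λ) (i : Fin 3) (y x : TL Γ) :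
    clk (rhs M l i y x) = none ∨ clk (rhs M l i y x) = some (i + 1) := by
  unfold rhs
  rcases M l (rd x) with _ | p
  · left
    simp [clk, sh]
  · right
    exact clk_act _ _ _ _ _

omit [Fintype Γ] [Fintype Λ] in
theorem rhs_ne (M : TM0.Machine Γ Λ) (l : Λ) (i : Fin 3) (y x : TL Γ) :
    rhs M l i y x ≠ [] := by
  unfold rhs
  rcases M l (rd x) with _ | ⟨l', (_ | _) | c⟩ <;> rcases x with x | x <;>
    rcases y with y | y <;> simp [act]

omit [Fintype Γ] [Fintype Λ] in
theorem clk_eq (M : TM0.Machine Γ Λ) {l l₂ : Λ} {i i₂ : Fin 3} {y x y₂ x₂ : TL Γ}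
    (h : rhs M l i y x = lhs l₂ i₂ y₂ x₂) : i₂ = i + 1 := by
  have h1 := clk_lhs l₂ i₂ y₂ x₂
  rw [← h] at h1
  rcases clk_rhs M l i y x with h2 | h2 <;> rw [h1] at h2
  · simp at h2
  · simpa using h2

theorem rules_ne (M : TM0.Machine Γ Λ) {r : List (Sy Γ Λ) × List (Sy Γ Λ)} (hr : r ∈ rules M) :
    r.1 ≠ [] ∧ r.2 ≠ [] ∧ r.1 ≠ r.2 ∧ (r.2, r.1) ∉ rules M := by
  rw [mem_rules] at hr
  rcases hr with ⟨l, i, y, x, rfl⟩ | hr
  · refine ⟨by simp [lhs], rhs_ne M l i y x, ?_, ?_⟩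
    · intro h
      have := clk_eq M h.symm
      fin_cases i <;> simp at this
    · intro h
      rw [mem_rules] at h
      rcases h with ⟨l₂, i₂, y₂, x₂, h⟩ | h
      · simp only [Prod.mk.injEq] at h
        obtain ⟨h3, h4⟩ := h
        have h5 := clk_eq M h3
        have h6 := clk_eq M h4.symm
        rw [h5] at h6
        fin_cases i <;> simp at h6
      · simp [hrules, lhs] at h
  · simp only [hrules, List.mem_cons, List.not_mem_nil, or_false] at hr
    have h2 : ∀ j k : Fin 5, (([sh j] : List (Sy Γ Λ)), ([sh k] : List (Sy Γ Λ))) ∈ rules M →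
        (j, k) ∈ ([(0, 1), (1, 2), (2, 0), (0, 3), (3, 4), (4, 0)] : List (Fin 5 × Fin 5)) := by
      intro j k h
      rw [mem_rules] at h
      rcases h with ⟨l₂, i₂, y₂, x₂, h⟩ | h
      · simp [lhs] at h
      · simpa [hrules, sh] using h
    rcases hr with rfl | rfl | rfl | rfl | rfl | rfl <;>
      refine ⟨by simp, by simp, by simp [sh], fun h => ?_⟩ <;>
      have := h2 _ _ h <;> revert this <;> decide

theorem pres_proper (M : TM0.Machine Γ Λ) : Proper (pres M) := by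
  intro r hr
  obtain ⟨⟨U, V⟩, h, rfl⟩ := List.mem_map.1 hr
  obtain ⟨h1, h2, h3, h4⟩ := rules_ne M h
  refine ⟨isWord_map M U h1, isWord_map M V h2, fun h => h3 (map_en_inj h), ?_⟩
  intro h5
  obtain ⟨⟨U', V'⟩, h6, h7⟩ := List.mem_map.1 h5
  simp only [Prod.mk.injEq] at h7
  obtain ⟨h8, h9⟩ := h7
  have h8 := map_en_inj h8
  have h9 := map_en_inj h9
  subst h8 h9
  exact h4 h6

theorem edge_dec (M : TM0.Machine Γ Λ) {x y : Vertex (pres M)} (e : Edge (pres M) x y) :
    ∃ A B U V : List (Sy Γ Λ), (U, V) ∈ rules M ∧ e.a = A.map en ∧ e.b = B.map en ∧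
      e.r = (U.map en, V.map en) ∧ x.word = (A ++ U ++ B).map en ∧
      y.word = (A ++ V ++ B).map en := by
  obtain ⟨a, b, r, mem, src, tgt⟩ := e
  obtain ⟨⟨U, V⟩, h, rfl⟩ := List.mem_map.1 mem
  obtain ⟨A, hA⟩ := exists_word (Γ := Γ) (Λ := Λ) a fun c hc => x.isWord.2 c (by
    rw [src]; simp [hc])
  obtain ⟨B, hB⟩ := exists_word (Γ := Γ) (Λ := Λ) b fun c hc => x.isWord.2 c (by
    rw [src]; simp [hc])
  refine ⟨A, B, U, V, h, hA.symm, hB.symm, rfl, ?_, ?_⟩
  · rw [src, ← hA, ← hB]; simp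
  · rw [tgt, ← hA, ← hB]; simp

/-- the vertices of running, never halting machine words -/
def run (M : TM0.Machine Γ Λ) : Set (Vertex (pres M)) :=
  {v | ∃ W : List (Sy Γ Λ), v.word = W.map en ∧ heads W = 1 ∧ hs W = 0 ∧ ¬ Bad M W}

omit [Inhabited Γ] [Inhabited Λ] [Fintype Γ] [Fintype Λ] in
theorem hs_hrules {r : List (Sy Γ Λ) × List (Sy Γ Λ)} (hr : r ∈ hrules) :
    hs r.1 = 1 ∧ hs r.2 = 1 := by
  simp only [hrules, List.mem_cons, List.not_mem_nil, or_false] at hr
  rcases hr with rfl | rfl | rfl | rfl | rfl | rfl <;> simp [hs, isH, sh]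

theorem run_det (M : TM0.Machine Γ Λ) : Det (run M) := by
  refine ⟨?_, ?_, ?_⟩
  · rintro v ⟨W, hv, h1, h2, h3⟩ ⟨y, e⟩ ⟨y', e'⟩
    obtain ⟨A, B, U, V, hr, ha, hb, hr', hx, hy⟩ := edge_dec M e
    obtain ⟨A', B', U', V', hr₂, ha', hb', hr₂', hx', hy'⟩ := edge_dec M e'
    rw [hv] at hx hx'
    have hx := map_en_inj hx
    have hx' := map_en_inj hx'
    rw [mem_rules] at hr hr₂
    rcases hr with ⟨l, i, z, x, hr⟩ | hr
    · rcases hr₂ with ⟨l', i', z', x', hr₂⟩ | hr₂
      · simp only [Prod.mk.injEq] at hr hr₂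
        obtain ⟨rfl, rfl⟩ := hr
        obtain ⟨rfl, rfl⟩ := hr₂
        rw [hx] at hx' h1
        obtain ⟨rfl, rfl, rfl, rfl, rfl, rfl⟩ := lhs_unique h1 hx'
        exact edge_ext _ _ (ha.trans ha'.symm) (hb.trans hb'.symm) (hr'.trans hr₂'.symm)
      · have := (hs_hrules hr₂).1
        simp only at this
        rw [hx', hs_append, hs_append] at h2
        omega
    · have := (hs_hrules hr).1
      simp only at this
      rw [hx, hs_append, hs_append] at h2
      omega
  · rintro v ⟨W, hv, h1, h2, h3⟩ y ⟨e⟩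
    obtain ⟨A, B, U, V, hr, ha, hb, hr', hx, hy⟩ := edge_dec M e
    rw [hv] at hx
    have hx := map_en_inj hx
    rw [mem_rules] at hr
    rcases hr with ⟨l, i, z, x, hr⟩ | hr
    · simp only [Prod.mk.injEq] at hr
      obtain ⟨rfl, rfl⟩ := hr
      rcases hM : M l (rd x) with _ | p
      · exact absurd (hx ▸ Bad.halt A B l i z x hM) h3
      · have hp : rhs M l i z x = act p.1 i z x p.2 := by
          unfold rhs
          rw [hM]
        rw [hp] at hy
        refine ⟨_, hy, ?_, ?_, ?_⟩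
        · rw [hx, heads_append, heads_append, heads_lhs] at h1
          rw [heads_append, heads_append, heads_act]
          exact h1
        · rw [hx, hs_append, hs_append, hs_lhs] at h2
          rw [hs_append, hs_append, hs_act]
          exact h2
        · intro hB
          exact h3 (hx ▸ Bad.step A B l i z x p hM hB)
    · have := (hs_hrules hr).1
      simp only at this
      rw [hx, hs_append, hs_append] at h2
      omega
  · rintro v ⟨W, hv, h1, h2, h3⟩ y ⟨e⟩
    obtain ⟨A, B, U, V, hr, ha, hb, hr', hx, hy⟩ := edge_dec M e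
    rw [hv] at hy
    have hy := map_en_inj hy
    rw [mem_rules] at hr
    rcases hr with ⟨l, i, z, x, hr⟩ | hr
    · simp only [Prod.mk.injEq] at hr
      obtain ⟨rfl, rfl⟩ := hr
      rcases hM : M l (rd x) with _ | p
      · exfalso
        have hp : rhs M l i z x = [.inl z, sh 0, .inl x] := by
          unfold rhs
          rw [hM]
        rw [hp] at hy
        rw [hy, hs_append, hs_append] at h2
        simp [hs, isH, sh] at h2
      · have hp : rhs M l i z x = act p.1 i z x p.2 := by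
          unfold rhs
          rw [hM]
        rw [hp] at hy
        have k1 : heads (A ++ lhs l i z x ++ B) = 1 := by
          rw [hy, heads_append, heads_append, heads_act] at h1
          rw [heads_append, heads_append, heads_lhs]
          exact h1
        refine ⟨_, hx, k1, ?_, ?_⟩
        · rw [hy, hs_append, hs_append, hs_act] at h2
          rw [hs_append, hs_append, hs_lhs]
          exact h2
        · intro hB
          generalize hW0 : A ++ lhs l i z x ++ B = W0 at hB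
          cases hB with
          | halt A' B' l' i' z' x' h =>
            obtain ⟨rfl, rfl, rfl, rfl, rfl, rfl⟩ := lhs_unique k1 hW0
            rw [hM] at h
            exact absurd h (by simp)
          | step A' B' l' i' z' x' p' h hB =>
            obtain ⟨rfl, rfl, rfl, rfl, rfl, rfl⟩ := lhs_unique k1 hW0
            rw [hM, Option.some.injEq] at h
            subst h
            rw [hy] at h3
            exact h3 hB
    · have := (hs_hrules hr).2
      simp only at this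
      rw [hy, hs_append, hs_append] at h2
      omega

/-- If the machine word never halts, the rank is at most one. -/
theorem rk_le_one (M : TM0.Machine Γ Λ) (W : List (Sy Γ Λ)) (hW : W ≠ []) (h1 : heads W = 1)
    (h2 : hs W = 0) (h3 : ¬ Bad M W) : rk (pres M) (vx M W hW) ≤ 1 :=
  rank_le_one fun g h => (run_det M).relation (w := vx M W hW) ⟨W, rfl, h1, h2, h3⟩ g h

/-- the edge of a rule -/
noncomputable def mkEdge (M : TM0.Machine Γ Λ) (A B : List (Sy Γ Λ)) {U V : List (Sy Γ Λ)}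
    (h : (U, V) ∈ rules M) (hU : A ++ U ++ B ≠ []) (hV : A ++ V ++ B ≠ []) :
    vx M (A ++ U ++ B) hU ⟶ vx M (A ++ V ++ B) hV :=
  (⟨A.map en, B.map en, (U.map en, V.map en), List.mem_map.2 ⟨_, h, rfl⟩, by simp [vx],
    by simp [vx]⟩ : Edge (pres M) _ _)

theorem bad_path (M : TM0.Machine Γ Λ) {W : List (Sy Γ Λ)} (h : Bad M W) :
    ∀ hW : W ≠ [], ∃ (V A B : List (Sy Γ Λ)) (hV : V ≠ []), V = A ++ [sh 0] ++ B ∧
      Nonempty (pt (vx M W hW) ⟶ pt (vx M V hV)) := by
  induction h with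
  | halt A B l i y x h =>
    intro hW
    have hr : (lhs l i y x, rhs M l i y x) ∈ rules M := (mem_rules M _).2 (Or.inl ⟨_, _, _, _, rfl⟩)
    have hp : rhs M l i y x = [.inl y, sh 0, .inl x] := by
      unfold rhs
      rw [h]
    rw [hp] at hr
    exact ⟨_, A ++ [.inl y], .inl x :: B, by simp, by simp, ⟨ed (mkEdge M A B hr hW (by simp))⟩⟩
  | step A B l i y x p h hB ih =>
    intro hW
    have hr : (lhs l i y x, rhs M l i y x) ∈ rules M := (mem_rules M _).2 (Or.inl ⟨_, _, _, _, rfl⟩)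
    have hp : rhs M l i y x = act p.1 i y x p.2 := by
      unfold rhs
      rw [h]
    have hne := rhs_ne M l i y x
    rw [hp] at hr hne
    have hne' : A ++ act p.1 i y x p.2 ++ B ≠ [] := by simp [hne]
    obtain ⟨V, A', B', hV, e, ⟨g⟩⟩ := ih hne'
    exact ⟨V, A', B', hV, e, ⟨ed (mkEdge M A B hr hW hne') ≫ g⟩⟩

theorem tri (M : TM0.Machine Γ Λ) (j k : Fin 5)
    (h : (([sh j] : List (Sy Γ Λ)), ([sh k] : List (Sy Γ Λ))) ∈ hrules) :
    (([sh j] : List (Sy Γ Λ)), ([sh k] : List (Sy Γ Λ))) ∈ rules M :=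
  (mem_rules M _).2 (Or.inr h)

/-- the edge between two halted words -/
noncomputable def he (M : TM0.Machine Γ Λ) (A B : List (Sy Γ Λ)) (j k : Fin 5)
    (h : (([sh j] : List (Sy Γ Λ)), ([sh k] : List (Sy Γ Λ))) ∈ hrules) :
    vx M (A ++ [sh j] ++ B) (by simp) ⟶ vx M (A ++ [sh k] ++ B) (by simp) :=
  mkEdge M A B (tri M j k h) (by simp) (by simp)

/-- the relation between two letters of the halted machine -/
noncomputable def hrel (j k : Fin 5) : List ℕ × List ℕ :=
  (List.map en ([sh j] : List (Sy Γ Λ)), List.map en ([sh k] : List (Sy Γ Λ)))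

omit [Inhabited Γ] [Inhabited Λ] in
theorem hrel_inj {j k j' k' : Fin 5} (h : hrel (Γ := Γ) (Λ := Λ) j k = hrel (Γ := Γ) (Λ := Λ) j' k') :
    j = j' ∧ k = k' := by
  simp only [hrel, Prod.mk.injEq] at h
  have h1 := map_en_inj h.1
  have h2 := map_en_inj h.2
  simp only [sh, List.cons.injEq, Sum.inr.injEq, and_true] at h1 h2
  exact ⟨h1, h2⟩

theorem cnt_he (M : TM0.Machine Γ Λ) (A B : List (Sy Γ Λ)) (j k j' k' : Fin 5)
    (h : (([sh j] : List (Sy Γ Λ)), ([sh k] : List (Sy Γ Λ))) ∈ hrules) :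
    cnt (hrel (Γ := Γ) (Λ := Λ) j' k') (ed (he M A B j k h)) =
      if (j = j' ∧ k = k') then Multiplicative.ofAdd 1 else 1 := by
  rw [cnt_ed]
  have : (show Edge (pres M) _ _ from he M A B j k h).r = hrel (Γ := Γ) (Λ := Λ) j k := rfl
  rw [this]
  by_cases hjk : j = j' ∧ k = k'
  · obtain ⟨rfl, rfl⟩ := hjk
    simp
  · rw [if_neg hjk, if_neg]
    intro h
    exact hjk (hrel_inj h)

/-- If the machine word halts, the rank is at least two. -/
theorem not_rk_le_one (M : TM0.Machine Γ Λ) (W : List (Sy Γ Λ)) (hW : W ≠ []) (h : Bad M W) :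
    ¬ rk (pres M) (vx M W hW) ≤ 1 := by
  obtain ⟨V, A, B, hV, rfl, ⟨g⟩⟩ := bad_path M h hW
  have m01 : (([sh 0] : List (Sy Γ Λ)), ([sh 1] : List (Sy Γ Λ))) ∈ hrules := by simp [hrules]
  have m12 : (([sh 1] : List (Sy Γ Λ)), ([sh 2] : List (Sy Γ Λ))) ∈ hrules := by simp [hrules]
  have m20 : (([sh 2] : List (Sy Γ Λ)), ([sh 0] : List (Sy Γ Λ))) ∈ hrules := by simp [hrules]
  have m03 : (([sh 0] : List (Sy Γ Λ)), ([sh 3] : List (Sy Γ Λ))) ∈ hrules := by simp [hrules]
  have m34 : (([sh 3] : List (Sy Γ Λ)), ([sh 4] : List (Sy Γ Λ))) ∈ hrules := by simp [hrules]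
  have m40 : (([sh 4] : List (Sy Γ Λ)), ([sh 0] : List (Sy Γ Λ))) ∈ hrules := by simp [hrules]
  let g₁ := g ≫ (ed (he M A B 0 1 m01) ≫ ed (he M A B 1 2 m12) ≫ ed (he M A B 2 0 m20)) ≫
    Groupoid.inv g
  let g₂ := g ≫ (ed (he M A B 0 3 m03) ≫ ed (he M A B 3 4 m34) ≫ ed (he M A B 4 0 m40)) ≫
    Groupoid.inv g
  refine not_rank_le_one (cntHom (hrel (Γ := Γ) (Λ := Λ) 0 1) _)
    (cntHom (hrel (Γ := Γ) (Λ := Λ) 0 3) _) g₁ g₂ ?_ ?_ ?_
  · change cnt _ g₁ = _
    simp only [g₁, cnt_comp, cnt_inv, cnt_he]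
    simp
  · change cnt _ g₂ = _
    simp only [g₂, cnt_comp, cnt_inv, cnt_he]
    simp
  · change cnt _ g₂ = _
    simp only [g₂, cnt_comp, cnt_inv, cnt_he]
    simp

end Machine

end Pool.Agent.H333R3.DG
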