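import Pool.Agent.H333R3.DG.Cyc

set_option autoImplicit false

namespace Pool.Agent.H333R3.DG

open CategoryTheory TensorProduct

variable {P : Pres}

section Abstract

variable {D : Type*} [Group D]

/-- the class of a group element in the rationalised abelianisation -/
noncomputable def tt (g : D) : ℚ ⊗[ℤ] Additive (Abelianization D) :=
  (1 : ℚ) ⊗ₜ[ℤ] Additive.ofMul (Abelianization.of g)

theorem tt_zpow (g : D) (m : ℤ) : tt (g ^ m) = (m : ℚ) • tt g := by
  unfold tt
  rw [map_zpow, ofMul_zpow, TensorProduct.tmul_smul, TensorProduct.smul_tmul',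
    TensorProduct.smul_tmul']
  simp

theorem rank_le_one (h : ∀ g h : D, ∃ m n : ℤ, (m ≠ 0 ∨ n ≠ 0) ∧ g ^ m = h ^ n) :
    Module.rank ℚ (ℚ ⊗[ℤ] Additive (Abelianization D)) ≤ 1 := by
  rw [rank_le_one_iff]
  have span : ∀ v₀ : ℚ ⊗[ℤ] Additive (Abelianization D),
      (∀ g : D, ∃ r : ℚ, r • v₀ = tt g) → ∀ v, ∃ r : ℚ, r • v₀ = v := by
    intro v₀ hv v
    induction v using TensorProduct.induction_on with
    | zero => exact ⟨0, by simp⟩
    | tmul q a =>
      obtain ⟨g, hg⟩ := QuotientGroup.mk_surjective (Additive.toMul a)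
      obtain ⟨r, hr⟩ := hv g
      refine ⟨q * r, ?_⟩
      rw [mul_smul, hr]
      unfold tt
      rw [TensorProduct.smul_tmul']
      congr 1
      simp
    | add x y hx hy =>
      obtain ⟨r, rfl⟩ := hx
      obtain ⟨s, rfl⟩ := hy
      exact ⟨r + s, add_smul _ _ _⟩
  by_cases h0 : ∀ g : D, tt g = 0
  · exact ⟨0, span 0 fun g => ⟨0, by rw [h0 g]; simp⟩⟩
  · push Not at h0
    obtain ⟨g₀, hg₀⟩ := h0
    refine ⟨tt g₀, span _ fun g => ?_⟩
    obtain ⟨m, n, hmn, e⟩ := h g₀ g
    have e1 := congrArg tt e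
    rw [tt_zpow, tt_zpow] at e1
    have hn : n ≠ 0 := by
      rintro rfl
      have hm : m ≠ 0 := by simpa using hmn
      rw [Int.cast_zero, zero_smul] at e1
      have hm' : (m : ℚ) ≠ 0 := by exact_mod_cast hm
      exact (smul_ne_zero hm' hg₀) e1
    have hn' : (n : ℚ) ≠ 0 := by exact_mod_cast hn
    refine ⟨(m : ℚ) / n, ?_⟩
    rw [div_eq_inv_mul, mul_smul, e1, inv_smul_smul₀ hn']

/-- the linear functional of a homomorphism to the integers -/
noncomputable def func (φ : D →* Multiplicative ℤ) : (ℚ ⊗[ℤ] Additive (Abelianization D)) →ₗ[ℚ] ℚ :=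
  TensorProduct.AlgebraTensorModule.lift
    { toFun := fun q =>
        { toFun := fun a => q * ((Abelianization.lift φ (Additive.toMul a)).toAdd : ℤ)
          map_add' := fun a b => by
            rw [toMul_add, map_mul, toAdd_mul]
            push_cast
            ring
          map_smul' := fun m a => by
            rw [toMul_zsmul, map_zpow, toAdd_zpow]
            simp only [smul_eq_mul, Int.cast_mul, eq_intCast, zsmul_eq_mul, Int.cast_id]
            ring }
      map_add' := fun q r => by ext a; simp [add_mul]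
      map_smul' := fun q r => by ext a; simp [mul_assoc] }

theorem func_tt (φ : D →* Multiplicative ℤ) (g : D) : func φ (tt g) = ((φ g).toAdd : ℤ) := by
  simp [func, tt]

theorem not_rank_le_one (φ₁ φ₂ : D →* Multiplicative ℤ) (g₁ g₂ : D)
    (h11 : φ₁ g₁ = Multiplicative.ofAdd 1) (h12 : φ₁ g₂ = 1)
    (h22 : φ₂ g₂ = Multiplicative.ofAdd 1) :
    ¬ Module.rank ℚ (ℚ ⊗[ℤ] Additive (Abelianization D)) ≤ 1 := by
  intro h
  rw [rank_le_one_iff] at h
  obtain ⟨v₀, hv⟩ := h
  obtain ⟨r₁, hr₁⟩ := hv (tt g₁)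
  obtain ⟨r₂, hr₂⟩ := hv (tt g₂)
  have e11 := congrArg (func φ₁) hr₁
  have e12 := congrArg (func φ₁) hr₂
  rw [map_smul, func_tt, h11] at e11
  rw [map_smul, func_tt, h12] at e12
  simp only [smul_eq_mul, toAdd_ofAdd, Int.cast_one, toAdd_one, Int.cast_zero] at e11 e12
  have hr : r₂ = 0 := by
    rcases mul_eq_zero.1 e12 with h | h
    · exact h
    · rw [h, mul_zero] at e11
      exact absurd e11 (by norm_num)
  rw [hr, zero_smul] at hr₂
  have e22 := congrArg (func φ₂) hr₂
  rw [map_zero, func_tt, h22] at e22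
  simp at e22

end Abstract

/-- the prefunctor counting the uses of the relation `r₀` -/
noncomputable def countPre (P : Pres) (r₀ : List ℕ × List ℕ) :
    Vertex P ⥤q SingleObj (Multiplicative ℤ) where
  obj _ := SingleObj.star _
  map {x y} (e : Edge P x y) :=
    (if e.r = r₀ then Multiplicative.ofAdd 1 else 1 : Multiplicative ℤ)

theorem lift_of {M : Type} [Group M] (φ : Vertex P ⥤q SingleObj M) {x y : Vertex P} (e : x ⟶ y) :
    (Quiver.FreeGroupoid.lift φ).map ((Quiver.FreeGroupoid.of _).map e) = φ.map e := by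
  change 𝟙 _ ≫ φ.map e = φ.map e
  simp

/-- The functor counting the uses of the relation `r₀`. -/
noncomputable def count (P : Pres) (r₀ : List ℕ × List ℕ) :
    Squier P ⥤ SingleObj (Multiplicative ℤ) :=
  CategoryTheory.Quotient.lift (SquareRel P) (Quiver.FreeGroupoid.lift (countPre P r₀))
    (by
      rintro _ _ _ _ ⟨e₁, e₂, e₃, e₄, h⟩
      obtain ⟨a, b, c, u, v, u', v', h1, h2, h3, h4⟩ := h
      rw [Functor.map_comp, Functor.map_comp, lift_of, lift_of, lift_of, lift_of]
      change (if e₂.r = r₀ then Multiplicative.ofAdd 1 else 1 : Multiplicative ℤ) *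
        (if e₁.r = r₀ then Multiplicative.ofAdd 1 else 1 : Multiplicative ℤ) =
        (if e₄.r = r₀ then Multiplicative.ofAdd 1 else 1 : Multiplicative ℤ) *
        (if e₃.r = r₀ then Multiplicative.ofAdd 1 else 1 : Multiplicative ℤ)
      rw [h1.2.1, h2.2.1, h3.2.1, h4.2.1, mul_comm])

/-- the homomorphism counting the uses of the relation `r₀` -/
noncomputable def cnt (r₀ : List ℕ × List ℕ) {x y : Vertex P} (g : pt x ⟶ pt y) :
    Multiplicative ℤ := (count P r₀).map g

theorem cnt_comp (r₀ : List ℕ × List ℕ) {x y z : Vertex P} (g : pt x ⟶ pt y) (h : pt y ⟶ pt z) :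
    cnt r₀ (g ≫ h) = cnt r₀ g * cnt r₀ h := by
  unfold cnt
  rw [Functor.map_comp]
  exact mul_comm (G := Multiplicative ℤ) _ _

theorem cnt_id (r₀ : List ℕ × List ℕ) (x : Vertex P) : cnt r₀ (𝟙 (pt x)) = 1 := by
  unfold cnt
  rw [CategoryTheory.Functor.map_id]
  rfl

theorem cnt_inv (r₀ : List ℕ × List ℕ) {x y : Vertex P} (g : pt x ⟶ pt y) :
    cnt r₀ (Groupoid.inv g) = (cnt r₀ g)⁻¹ := by
  rw [eq_inv_iff_mul_eq_one, ← cnt_comp, Groupoid.inv_comp, cnt_id]

theorem cnt_ed (r₀ : List ℕ × List ℕ) {x y : Vertex P} (e : x ⟶ y) :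
    cnt r₀ (ed e) = if (show Edge P x y from e).r = r₀ then Multiplicative.ofAdd 1 else 1 := by
  exact lift_of (countPre P r₀) e

/-- the homomorphism counting the uses of the relation `r₀` -/
noncomputable def cntHom (r₀ : List ℕ × List ℕ) (w : Vertex P) :
    DiagramGroup P w →* Multiplicative ℤ where
  toFun g := cnt r₀ g
  map_one' := cnt_id r₀ w
  map_mul' g h := cnt_comp r₀ g h

end Pool.Agent.H333R3.DG
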